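import Pool.Agent.H91.QO.COREO2

/-! # MP_c62aed_lc, order version: the large width case (helper91) -/

set_option autoImplicit false

namespace Pool.Agent.H91.QO

open Finset
open Pool.Agent.H1.LP (Clause viol)
open Pool.Agent.H91.SV (kc kc_nonneg)
open Pool.Agent.H43.QO (Pool RefutedBy Good2 T_GOO2 HardO StatementOW)

theorem NO_cube (R K L k : ℕ) (hR : 1 ≤ R) (hL : 2 ≤ L) (hK : 2 ≤ K) (hk : 1 ≤ k) :
    (2 : ℝ) ^ 14 * R ≤ 36 * ((NO R K L k : ℝ) + 1) ^ 3 := by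
  have h1 : 2 ^ 9 ≤ 2 ^ ((K + 1) * (L + 1) * k) := by
    apply Nat.pow_le_pow_right (by norm_num)
    calc 9 = 3 * 3 * 1 := by norm_num
      _ ≤ (K + 1) * (L + 1) * k := by gcongr <;> omega
  have h2 : R * 2 ^ 9 ≤ NO R K L k := by
    unfold NO
    exact Nat.mul_le_mul_left _ h1
  have h3 : (R : ℝ) * 2 ^ 9 ≤ NO R K L k := by exact_mod_cast h2
  have hR1 : (1 : ℝ) ≤ R := by exact_mod_cast hR
  have h4 : (1 : ℝ) ≤ (NO R K L k : ℝ) + 1 := by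
    have : (0 : ℝ) ≤ (NO R K L k : ℝ) := Nat.cast_nonneg _
    linarith
  have h5 : ((NO R K L k : ℝ) + 1) ≤ ((NO R K L k : ℝ) + 1) ^ 3 := by
    calc ((NO R K L k : ℝ) + 1) = ((NO R K L k : ℝ) + 1) ^ 1 := by ring
      _ ≤ _ := pow_le_pow_right₀ h4 (by norm_num)
  linarith

theorem pf_FINO (hC : S_COREO2) (hG : T_GOO2) (hP : S_PARMO) : StatementOW := by
  classical
  intro C ε hε
  obtain ⟨E, hE, hEε, hpar⟩ := hP C ε hε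
  obtain ⟨K, w, ρ, k, p, hp, hEK, hw, hρ, hk, hpK, hpK2, hgood⟩ := hG E hE
  obtain ⟨L, Kc, γ, e0, hL, he0, he1, hpe, hγ, n₀, hn⟩ := hpar K w ρ k p hEK hw hρ hk hpK hpK2
  refine ⟨(K + 1) * (L + 1) * k, Kc, γ, hγ, n₀, fun n hn0 => ?_⟩
  obtain ⟨u, hku, hwu, hNO, h4, hfin⟩ := hn n hn0
  have hu1 : 1 ≤ u := hk.trans hku
  have hR : 1 ≤ ρ * u := Nat.one_le_iff_ne_zero.2 (by positivity)
  have hth0 : (0 : ℝ) ≤ ((4 : ℝ) ^ (w * u))⁻¹ := by positivity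
  have hth1 : ((4 : ℝ) ^ (w * u))⁻¹ ≤ 1 := inv_le_one_of_one_le₀ (one_le_pow₀ (by norm_num))
  obtain ⟨Y, m, phi, hY, hm, hmain⟩ := hC E K k p (w * u) (ρ * u) L n (w * u - w * u / E)
    (((4 : ℝ) ^ (w * u))⁻¹) e0 hE hR hpK2 (hgood u hku) hth0 hth1 hwu he0 he1 hpe
  refine ⟨Y, m, phi, hY, ?_, ?_⟩
  · intro a
    obtain ⟨h1, h2, h3, h5⟩ := hm a
    refine ⟨h1, h2.trans hNO, h3, fun x => le_trans ?_ (h5 x)⟩
    gcongr
  · intro M P hPW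
    obtain ⟨A, hA⟩ : ∃ A : Finset (Fin Y), A = Finset.univ.filter (fun a => RefutedBy P (phi a)
        ((2 : ℝ) ^ (-(γ * n))) ((2 : ℝ) ^ ((1 - ε) * n))) := ⟨_, rfl⟩
    have hA' : (Finset.univ.filter (fun a => RefutedBy P (phi a)
        ((2 : ℝ) ^ (-(γ * n))) ((2 : ℝ) ^ ((1 - ε) * n)))) = A := hA.symm
    have hAm : ∀ a ∈ A, RefutedBy P (phi a) ((2 : ℝ) ^ (-(γ * n))) ((2 : ℝ) ^ ((1 - ε) * n)) := by
      intro a ha
      rw [hA] at ha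
      exact (mem_filter.1 ha).2
    have hY0 : (0 : ℝ) < Y := by exact_mod_cast hY
    have hd0 : (0 : ℝ) < (2 : ℝ) ^ (-(γ * n)) := by positivity
    have hW0 : (0 : ℝ) < (2 : ℝ) ^ (C * n) := by positivity
    convert_to ((A.card : ℕ) : ℝ) ≤ (2 : ℝ) ^ (-(γ * n)) * Y
    · congr!
    rcases Nat.eq_zero_or_pos A.card with h0 | h0
    · rw [h0]
      push_cast
      positivity
    have hN0 : (0 : ℝ) < A.card := by exact_mod_cast h0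
    have hR1 : (1 : ℝ) ≤ ((ρ * u : ℕ) : ℝ) := by exact_mod_cast hR
    have hthde : ((4 : ℝ) ^ (w * u))⁻¹ ≤ (2 : ℝ) ^ (-(γ * n)) / 4 := by
      refine le_trans ?_ h4
      exact le_mul_of_one_le_right hth0 hR1
    have hθ0 : (0 : ℝ) < (A.card : ℝ) / (Y * (2 : ℝ) ^ (C * n)) := by positivity
    have hθ : (A.card : ℝ) / (Y * (2 : ℝ) ^ (C * n)) * Y * (2 : ℝ) ^ (C * n) ≤ A.card := by
      refine le_of_eq ?_
      field_simp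
    have key := hmain M P A ((2 : ℝ) ^ (-(γ * n))) ((2 : ℝ) ^ ((1 - ε) * n)) ((2 : ℝ) ^ (C * n))
      ((A.card : ℝ) / (Y * (2 : ℝ) ^ (C * n))) hd0 hthde hW0 hθ0 hAm hPW hθ h0
    refine hfin A.card Y hN0 hY0 (key.trans ?_)
    have hkc := kc_nonneg p (p ^ L) (w * u) (w * u - w * u / E) e0 ((2 : ℝ) ^ (C * n))
      ((A.card : ℝ) / (Y * (2 : ℝ) ^ (C * n))) he0 hW0 hθ0
    have hcube := NO_cube (ρ * u) K L k hR hL (hE.trans hEK) hk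
    obtain ⟨kb, hkb⟩ : ∃ kb, kb = kc p (p ^ L) (w * u) (w * u - w * u / E) e0 ((2 : ℝ) ^ (C * n))
      ((A.card : ℝ) / (Y * (2 : ℝ) ^ (C * n))) := ⟨_, rfl⟩
    rw [← hkb] at hkc ⊢
    have hS : (0 : ℝ) ≤ (2 : ℝ) ^ ((1 - ε) * n) + 1 := by positivity
    calc 2 ^ 14 * ((p : ℝ) ^ (w * u)) ^ 2 * (((ρ * u : ℕ) : ℝ) * kb) *
          ((2 : ℝ) ^ ((1 - ε) * n) + 1)
        = (2 ^ 14 * ((ρ * u : ℕ) : ℝ)) * (((p : ℝ) ^ (w * u)) ^ 2 * kb *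
          ((2 : ℝ) ^ ((1 - ε) * n) + 1)) := by ring
      _ ≤ (36 * ((NO (ρ * u) K L k : ℝ) + 1) ^ 3) * (((p : ℝ) ^ (w * u)) ^ 2 * kb *
          ((2 : ℝ) ^ ((1 - ε) * n) + 1)) := by gcongr
      _ = _ := by ring

end Pool.Agent.H91.QO
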