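import Pool.Agent.H91.QO.FINO
import Pool.Agent.H7.QO.PARMO
import Pool.Agent.H49.QO.ABSO2
import Pool.Agent.H34.QO.LIMO
import Pool.Agent.H39.QO.HB
import Pool.Agent.H58.QO.PADO
import Pool.Agent.H39.SV.CELB
import Pool.Agent.H34.SV.CEL
import Pool.Agent.H56.SV.XXB
import Pool.Agent.H43.PS.AllB
import Pool.Agent.H55.AV.BALH
import Pool.Agent.H77.AV.MAS
import Pool.Agent.H91.UV.Asm
import Pool.Agent.H32.QD.FRQ

/-! # MP_c62aed_lc, constraints chosen after the formula, order version: assembly (helper91) -/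

set_option autoImplicit false

namespace Pool.Agent.H91.QO

open Pool.Agent.H43.QO (T_GOO2 StatementOW StatementO S_ODUAL S_MONO)
open Pool.Agent.H91.SV (S_CELB)
open H43.PS.All (sdp nrm trp)

theorem celb : S_CELB :=
  H39.SV.pf_CELB (H34.SV.pf_CEL sdp nrm Pool.Agent.H63.PSD.LSH trp) H56.SV.pf_XXB

theorem coreo2_of (hO : S_ODUAL) : S_COREO2 :=
  pf_COREO2 H49.QO.pf_ABSO2 H32.QD.pf_FRQ H58.KX.pf_NPR H88.LP.enc hO celb
    H55.AV.pf_BALH H77.AV.pf_MAS

theorem statementOW_of (hO : S_ODUAL) (hG : T_GOO2) : StatementOW :=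
  pf_FINO (coreo2_of hO) hG H7.QO.pf_PARMO

theorem statementO_of (hO : S_ODUAL) (hG : T_GOO2) (hM : S_MONO) : StatementO :=
  H34.QO.pf_LIMO H58.QO.pf_PADO hM (statementOW_of hO hG) H49.SDP.hardS3

end Pool.Agent.H91.QO
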