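import Pool.Agent.H91.SV.Targets

/-! # MP_c62aed_lc, order version: the violated part of one clause (helper91) -/

namespace Pool.Agent.H91.QO

open Finset

theorem clv {X Y : Type} [Fintype X] (R : ℕ) (K : Y → X → ℝ) (Kb : Fin R → Y → X → ℝ)
    (Mx kb θ th : ℝ) (hMx : 0 ≤ Mx) (hkb : 0 ≤ kb) (hθ : 0 < θ)
    (H : ∀ (i : Fin R) (f : Y → ℝ) (g : X → ℝ), (∀ a, 0 ≤ f a) → (∀ x, 0 ≤ g x) →
      ∀ (A : Finset Y) (X' : Finset X) (m : ℝ), 0 < m → (∀ a ∈ A, ∀ x ∈ X', f a * g x ≤ m) →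
      ∑ a ∈ A, ∑ x ∈ X', Kb i a x * (f a * g x) ≤ th * (∑ a ∈ A, ∑ x ∈ X', f a * g x) +
        2 * Mx * (2 * Real.sqrt ((∑ a ∈ A, ∑ x ∈ X', f a * g x) *
          (kb * m * (A.card + θ) * Fintype.card X)) +
          kb * m * (A.card + θ) * Fintype.card X))
    (idx : Y → Fin R) (f : Y → ℝ) (g : X → ℝ) (hf : ∀ a, 0 ≤ f a) (hg : ∀ x, 0 ≤ g x)
    (hK : ∀ a x, f a ≠ 0 → g x ≠ 0 → K a x = Kb (idx a) a x) (A : Finset Y) (X' : Finset X)
    (m : ℝ) (hm : 0 < m) (hfg : ∀ a ∈ A, ∀ x ∈ X', f a * g x ≤ m) :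
    ∑ a ∈ A, ∑ x ∈ X', K a x * (f a * g x) ≤ th * (∑ a ∈ A, ∑ x ∈ X', f a * g x) +
        2 * Mx * (2 * Real.sqrt ((∑ a ∈ A, ∑ x ∈ X', f a * g x) *
          ((R * kb) * m * (A.card + θ) * Fintype.card X)) +
          (R * kb) * m * (A.card + θ) * Fintype.card X) := by
  classical
  obtain ⟨fi, hfi⟩ : ∃ fi : Fin R → Y → ℝ, fi = fun i a => if idx a = i then f a else 0 := ⟨_, rfl⟩
  have hfi0 : ∀ i a, 0 ≤ fi i a := by
    intro i a
    rw [hfi]
    dsimp only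
    split_ifs
    · exact hf a
    · exact le_rfl
  have hfile : ∀ i a, fi i a ≤ f a := by
    intro i a
    rw [hfi]
    dsimp only
    split_ifs
    · exact le_rfl
    · exact hf a
  have hsum : ∀ a, ∑ i, fi i a = f a := by
    intro a
    rw [hfi]
    simp
  obtain ⟨S, hS⟩ : ∃ S : Fin R → ℝ, S = fun i => ∑ a ∈ A, ∑ x ∈ X', fi i a * g x := ⟨_, rfl⟩
  have hS0 : ∀ i, 0 ≤ S i := by
    intro i
    rw [hS]
    exact Finset.sum_nonneg fun a _ => Finset.sum_nonneg fun x _ => mul_nonneg (hfi0 i a) (hg x)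
  have hSs : ∑ i, S i = ∑ a ∈ A, ∑ x ∈ X', f a * g x := by
    rw [hS]
    rw [Finset.sum_comm]
    refine Finset.sum_congr rfl fun a _ => ?_
    rw [Finset.sum_comm]
    refine Finset.sum_congr rfl fun x _ => ?_
    rw [← Finset.sum_mul, hsum]
  obtain ⟨E, hE⟩ : ∃ E : ℝ, E = kb * m * (A.card + θ) * Fintype.card X := ⟨_, rfl⟩
  have hE0 : 0 ≤ E := by
    rw [hE]
    positivity
  have hKs : ∑ i, ∑ a ∈ A, ∑ x ∈ X', Kb i a x * (fi i a * g x) =
      ∑ a ∈ A, ∑ x ∈ X', K a x * (f a * g x) := by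
    rw [Finset.sum_comm]
    refine Finset.sum_congr rfl fun a _ => ?_
    rw [Finset.sum_comm]
    refine Finset.sum_congr rfl fun x _ => ?_
    have h1 : ∀ i, i ≠ idx a → Kb i a x * (fi i a * g x) = 0 := by
      intro i hi
      rw [hfi]
      dsimp only
      rw [if_neg (Ne.symm hi)]
      ring
    rw [Finset.sum_eq_single (idx a) (fun i _ hi => h1 i hi) (fun h => absurd (mem_univ _) h)]
    have h2 : fi (idx a) a = f a := by
      rw [hfi]
      simp
    rw [h2]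
    by_cases h3 : f a = 0
    · rw [h3]
      ring
    by_cases h4 : g x = 0
    · rw [h4]
      ring
    rw [hK a x h3 h4]
  have hi : ∀ i, ∑ a ∈ A, ∑ x ∈ X', Kb i a x * (fi i a * g x) ≤
      th * S i + 2 * Mx * (2 * Real.sqrt (S i * E) + E) := by
    intro i
    rw [hE, hS]
    exact H i (fi i) g (hfi0 i) hg A X' m hm (fun a ha x hx =>
      (mul_le_mul_of_nonneg_right (hfile i a) (hg x)).trans (hfg a ha x hx))
  have hCS : ∑ i, Real.sqrt (S i * E) ≤ Real.sqrt ((∑ i, S i) * (R * E)) := by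
    apply Real.le_sqrt_of_sq_le
    have h1 := sq_sum_le_card_mul_sum_sq (s := (univ : Finset (Fin R)))
      (f := fun i => Real.sqrt (S i * E))
    rw [Finset.card_univ, Fintype.card_fin] at h1
    refine h1.trans (le_of_eq ?_)
    have h2 : ∀ i, Real.sqrt (S i * E) ^ 2 = S i * E := fun i =>
      Real.sq_sqrt (mul_nonneg (hS0 i) hE0)
    simp only [h2]
    rw [← Finset.sum_mul]
    ring
  rw [← hKs, ← hSs]
  calc ∑ i, ∑ a ∈ A, ∑ x ∈ X', Kb i a x * (fi i a * g x)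
      ≤ ∑ i, (th * S i + 2 * Mx * (2 * Real.sqrt (S i * E) + E)) :=
        Finset.sum_le_sum fun i _ => hi i
    _ = th * (∑ i, S i) + 2 * Mx * (2 * (∑ i, Real.sqrt (S i * E)) + R * E) := by
        rw [Finset.sum_add_distrib, ← Finset.mul_sum, ← Finset.mul_sum, Finset.sum_add_distrib,
          ← Finset.mul_sum, Finset.sum_const, Finset.card_univ, Fintype.card_fin, nsmul_eq_mul]
    _ ≤ th * (∑ i, S i) + 2 * Mx * (2 * Real.sqrt ((∑ i, S i) * (R * E)) + R * E) := by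
        gcongr
    _ = _ := by
        rw [hE]
        congr 3
        · congr 3
          ring
        · ring

end Pool.Agent.H91.QO
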