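import Pool.Agent.H91.SV.Targets
import Pool.Agent.H76.QE.Targets2

/-!
# MP_c62aed_lc: semidefinite programs of total order `2 ^ ((1 - ε) n)`: targets (helper91)

Last layer on top of `qd_modules` (helper76: `T_GOO`, `T_FRQ`, `T_VMN`) and of `S_CELB` (done).  The
constraints of a relaxation may be chosen after the formula (helper43): `I a j` = the matrix
inequalities of the cell `j` used for the formula `a`.
-/

namespace Pool.Agent.H91.QO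

open Finset Matrix
open Pool.Agent.H91.SV (kc)

open Classical in
/-- ABSO: the abstract inequality.  `K` = kernel, `F a` = the clauses of the formula `a`,
`sat c x` = the point `x` satisfies `c`, `th` = the mass of the violated clauses. -/
def S_ABSO : Prop :=
  ∀ (X Y C : Type) [Fintype X] [Nonempty X] [Fintype Y] [Fintype C] (K : Y → X → ℝ)
    (kb Mx θ W th : ℝ) (F : Y → Finset C) (sat : C → X → Prop),
    0 ≤ kb → 1 ≤ Mx → 0 < θ → (∀ a x, |K a x| ≤ Mx) → (∀ a, ∑ x, K a x = Fintype.card X) →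
    (∀ a, ∑ x, K a x * (((F a).filter (fun c => ¬ sat c x)).card : ℝ) ≤ th * Fintype.card X) →
    (∀ (q : ℕ) (f : Y → Matrix (Fin q) (Fin q) ℝ) (g : X → Matrix (Fin q) (Fin q) ℝ),
      (q : ℝ) ≤ W → (∀ a, (f a).PosSemidef) → (∀ x, (g x).PosSemidef) →
      ∀ (A : Finset Y) (X' : Finset X) (m : ℝ), 0 < m →
      (∀ a ∈ A, ∀ x ∈ X', (f a * g x).trace ≤ m) →
      -(Mx * (2 * Real.sqrt ((∑ a ∈ A, ∑ x ∈ X', (f a * g x).trace) *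
        (kb * m * q * (A.card + θ) * Fintype.card X)) +
        kb * m * q * (A.card + θ) * Fintype.card X)) ≤
        ∑ a ∈ A, ∑ x ∈ X', K a x * (f a * g x).trace) →
    ∀ (M : ℕ) (A : Finset Y) (J : Y → Finset (Fin M)) (cell : Fin M → Set X) (nb : Fin M → ℕ)
      (o : (j : Fin M) → Fin (nb j) → ℕ) (I : Y → (j : Fin M) → Finset (Fin (nb j)))
      (G : (j : Fin M) → X → (i : Fin (nb j)) → Matrix (Fin (o j i)) (Fin (o j i)) ℝ)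
      (L : Y → (j : Fin M) → (i : Fin (nb j)) → Matrix (Fin (o j i)) (Fin (o j i)) ℝ)
      (lam0 : Y → Fin M → ℝ) (ls : Fin M → C → X → ℝ) (de T : ℝ),
      0 < de → th ≤ de / 4 →
      (∀ a ∈ A, ∀ x, ∃ j ∈ J a, x ∈ cell j) →
      (∀ a ∈ A, ∀ j ∈ J a, ∀ j' ∈ J a, j ≠ j' → Disjoint (cell j) (cell j')) →
      (∀ j, ∀ x ∈ cell j, ∀ i, (G j x i).PosSemidef) → (∀ a j i, (L a j i).PosSemidef) →
      (∀ a j i, i ∉ I a j → L a j i = 0) → (∀ a j, 0 ≤ lam0 a j) →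
      (∀ j c, ∀ x ∈ cell j, ls j c x ≤ 1) → (∀ j c, ∀ x ∈ cell j, sat c x → ls j c x ≤ 0) →
      (∀ a ∈ A, ∀ j ∈ J a, ∀ x ∈ cell j,
        |∑ c ∈ F a, ls j c x - de - (lam0 a j + ∑ i, (L a j i * G j x i).trace)| ≤
          de / (4 * Mx)) →
      (∀ a ∈ A, ∑ j ∈ J a, (∑ i ∈ I a j, (o j i : ℝ) + 1) ≤ T) →
      ∑ j, (∑ i, (o j i : ℝ) + 1) ≤ W → θ * W ≤ A.card → 0 < A.card →
      de ^ 2 ≤ 36 * Mx ^ 2 * (Fintype.card C + 1) ^ 3 * kb * (T + 1)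

/-- the number of possible clauses -/
def NO (R K L k : ℕ) : ℕ := R * 2 ^ ((K + 1) * (L + 1) * k)

/-- PARMO: choice of the parameters; blocks `w * u`, constraints `ρ * u`, `(K + 1) * (L + 1)` bits
per block -/
def S_PARMO : Prop :=
  ∀ C ε : ℝ, 0 < ε → ∃ E : ℕ, 2 ≤ E ∧ 1 / (E : ℝ) ≤ ε ∧
    ∀ K w ρ k p : ℕ, E ≤ K → 1 ≤ w → 1 ≤ ρ → 1 ≤ k → 2 ^ K < p → p ≤ 2 ^ (K + 1) →
    ∃ (L Kc : ℕ) (γ e0 : ℝ), 2 ≤ L ∧ 0 < e0 ∧ e0 < 1 / 3 ∧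
      (p : ℝ) ≤ e0 * ((p ^ L : ℕ) : ℝ) ∧ 0 < γ ∧
      ∃ n₀ : ℕ, ∀ n : ℕ, n₀ ≤ n → ∃ u : ℕ, k ≤ u ∧ (w * u) * ((K + 1) * (L + 1)) ≤ n ∧
        NO (ρ * u) K L k ≤ Kc * n ∧
        ((4 : ℝ) ^ (w * u))⁻¹ * ((ρ * u : ℕ) : ℝ) ≤ (2 : ℝ) ^ (-(γ * n)) / 4 ∧
        ∀ N Y : ℝ, 0 < N → 0 < Y →
          ((2 : ℝ) ^ (-(γ * n))) ^ 2 ≤ 36 * ((p : ℝ) ^ (w * u)) ^ 2 *
            ((NO (ρ * u) K L k : ℝ) + 1) ^ 3 *
            kc p (p ^ L) (w * u) (w * u - w * u / E) e0 ((2 : ℝ) ^ (C * n))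
              (N / (Y * (2 : ℝ) ^ (C * n))) * ((2 : ℝ) ^ ((1 - ε) * n) + 1) →
          N ≤ (2 : ℝ) ^ (-(γ * n)) * Y

end Pool.Agent.H91.QO
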