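import Pool.Agent.H91.QO.CLV
import Pool.Agent.H91.QO.TargetsA
import Pool.Agent.H91.AV.CORE
import Pool.Agent.H91.SV.KCB
import Pool.Agent.H43.QO.TargetsB

/-! # MP_c62aed_lc, order version: assembly of the core inequality (helper91) -/

set_option autoImplicit false

namespace Pool.Agent.H91.QO

open Finset Matrix
open Pool.Agent.H1.LP (Clause viol Agree)
open Pool.Agent.H96.KX (prs)
open Pool.Agent.H91.AV (S_BALH S_MAS)
open Pool.Agent.H91.SV (kc kc_nonneg S_CELB)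
open H43.PS (PosDeg av)
open Pool.Agent.H43.QO (Pool RefutedBy Good2 S_ODUAL S_ABSO2)

/-- the core inequality; `(K + 1) * (L + 1)` bits per block -/
def S_COREO2 : Prop :=
  ∀ (E K k p N R L n h : ℕ) [Fact p.Prime] (th e0 : ℝ), 2 ≤ E → 1 ≤ R → p ≤ 2 ^ (K + 1) →
    Good2 p N R k h (1 - 1 / (E : ℝ)) th → 0 ≤ th → th ≤ 1 → N * ((K + 1) * (L + 1)) ≤ n →
    0 < e0 → e0 < 1 / 3 → (p : ℝ) ≤ e0 * ((p ^ L : ℕ) : ℝ) →
    ∃ (Y : ℕ) (m : Fin Y → ℕ) (phi : (a : Fin Y) → Fin (m a) → Clause n), 0 < Y ∧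
      (∀ a, 1 ≤ m a ∧ m a ≤ NO R K L k ∧
        (∀ i, (phi a i).card = (K + 1) * (L + 1) * k ∧
          ((phi a i).image Prod.fst).card = (K + 1) * (L + 1) * k) ∧
        ∀ x, (1 - 1 / (E : ℝ)) * ((m a : ℝ) / 2 ^ ((K + 1) * (L + 1) * k)) ≤
          (viol (phi a) x : ℝ)) ∧
      ∀ (M : ℕ) (P : Fin M → Pool n) (A : Finset (Fin Y)) (de S W θ : ℝ), 0 < de →
        th ≤ de / 4 → 0 < W → 0 < θ → (∀ a ∈ A, RefutedBy P (phi a) de S) →
        ∑ j, (P j).sizeOf Finset.univ Finset.univ ≤ W → θ * Y * W ≤ A.card → 0 < A.card →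
        de ^ 2 ≤ 2 ^ 14 * ((p : ℝ) ^ N) ^ 2 * ((R : ℝ) * kc p (p ^ L) N h e0 W θ) * (S + 1)

/-- monotonicity of the error term in `kb` -/
theorem err_mono {Mx s e e' : ℝ} (hMx : 0 ≤ Mx) (hs : 0 ≤ s) (he : e ≤ e') :
    Mx * (2 * Real.sqrt (s * e) + e) ≤ Mx * (2 * Real.sqrt (s * e') + e') := by
  have h1 : Real.sqrt (s * e) ≤ Real.sqrt (s * e') := Real.sqrt_le_sqrt (by gcongr)
  gcongr

/-- the inequality for one constraint -/
theorem one_c (hCE : S_CELB) (p q N h : ℕ) [Fact p.Prime] (e0 W θ : ℝ) (hq : 1 ≤ q)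
    (he0 : 0 < e0) (he1 : e0 < 1 / 3) (hpq : (p : ℝ) ≤ e0 * q) (hW : 1 ≤ W) (hθ : 0 < θ)
    (D : (Fin N → ZMod p) → ℝ) (Mx th : ℝ) (hMx : 1 ≤ Mx) (hD : ∀ z, |D z| ≤ Mx)
    (hth0 : 0 ≤ th) (hth1 : th ≤ 1)
    (hP : PosDeg h (fun z => th - D z)) (f : (Fin N → Fin q → ZMod p) → ℝ)
    (g : (Fin N → ZMod p × Fin q) → ℝ) (hf : ∀ a, 0 ≤ f a) (hg : ∀ x, 0 ≤ g x)
    (A : Finset (Fin N → Fin q → ZMod p)) (X : Finset (Fin N → ZMod p × Fin q)) (m : ℝ)
    (hm : 0 < m) (hfg : ∀ a ∈ A, ∀ x ∈ X, f a * g x ≤ m) :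
    ∑ a ∈ A, ∑ x ∈ X, D (fun i => Pool.Agent.H91.AV.hs p (Fin q) (a i) (x i)) * (f a * g x) ≤
      th * (∑ a ∈ A, ∑ x ∈ X, f a * g x) + 2 * Mx * (2 * Real.sqrt ((∑ a ∈ A, ∑ x ∈ X, f a * g x) *
        (kc p q N h e0 W θ * m * (A.card + θ * Fintype.card (Fin N → Fin q → ZMod p)) *
          Fintype.card (Fin N → ZMod p × Fin q))) +
        kc p q N h e0 W θ * m * (A.card + θ * Fintype.card (Fin N → Fin q → ZMod p)) *
          Fintype.card (Fin N → ZMod p × Fin q)) := by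
  have h0 := hCE p q N h e0 W θ hq he0 he1 hpq (by linarith) hθ (fun z => th - D z) (2 * Mx)
    (by
      intro z
      have h1 := abs_le.1 (hD z)
      rw [abs_le]
      constructor <;> linarith [h1.1, h1.2])
    hP 1 (fun a => f a • (1 : Matrix (Fin 1) (Fin 1) ℝ))
    (fun x => g x • (1 : Matrix (Fin 1) (Fin 1) ℝ)) (by
      push_cast
      exact hW)
    (fun a => Matrix.PosSemidef.one.smul (hf a)) (fun x => Matrix.PosSemidef.one.smul (hg x))
    A X m hm
  have htr : ∀ a x, ((f a • (1 : Matrix (Fin 1) (Fin 1) ℝ)) *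
      (g x • (1 : Matrix (Fin 1) (Fin 1) ℝ))).trace = f a * g x := by
    intro a x
    simp [Matrix.trace, mul_comm]
  simp only [htr, Nat.cast_one, mul_one] at h0
  have h1 := h0 hfg
  have h2 : ∑ a ∈ A, ∑ x ∈ X, (th - D (fun i => Pool.Agent.H91.AV.hs p (Fin q) (a i) (x i))) *
      (f a * g x) = th * (∑ a ∈ A, ∑ x ∈ X, f a * g x) -
      ∑ a ∈ A, ∑ x ∈ X, D (fun i => Pool.Agent.H91.AV.hs p (Fin q) (a i) (x i)) *
        (f a * g x) := by
    rw [Finset.mul_sum, ← Finset.sum_sub_distrib]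
    refine Finset.sum_congr rfl fun a _ => ?_
    rw [Finset.mul_sum, ← Finset.sum_sub_distrib]
    refine Finset.sum_congr rfl fun x _ => ?_
    ring
  rw [h2] at h1
  linarith

theorem pf_COREO2 (hAB : S_ABSO2) (hFR : Pool.Agent.H76.QE.T_FRQ) (hNP : H96.KX.S_NPR)
    (hEN : Pool.Agent.H1.LP.S_ENC) (hOD : S_ODUAL) (hCE : S_CELB) (hBA : S_BALH)
    (hMA : S_MAS) : S_COREO2 := by
  classical
  intro E K k p N R L n h hp th e0 hE hR hple hG hth0 hth1 hNn he0 he1 hpL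
  obtain ⟨T, bad, D, hT, hbad, hz, hD, hPos, havD, hvP⟩ := hG
  obtain ⟨b, hb⟩ : ∃ b, (K + 1) * (L + 1) = b := ⟨_, rfl⟩
  have hNO : NO R K L k = R * 2 ^ (b * k) := by
    unfold NO
    rw [hb]
  simp only [hb] at hNn ⊢
  obtain ⟨asg, dec, cl, hda, hsat, hcard⟩ := hEN n N b hNn
  have hpn0 : 0 < p := (Fact.out : p.Prime).pos
  have hNZ : NeZero p := ⟨hpn0.ne'⟩
  have hp0 : (0 : ℝ) < p := by exact_mod_cast hpn0
  have hp1 : (1 : ℝ) ≤ p := by exact_mod_cast (Fact.out : p.Prime).one_lt.le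
  have hR0 : (0 : ℝ) < R := by exact_mod_cast hR
  have hR1 : (1 : ℝ) ≤ R := by exact_mod_cast hR
  have hE2 : (2 : ℝ) ≤ E := by exact_mod_cast hE
  have hEi : 1 / (E : ℝ) ≤ 1 / 2 := one_div_le_one_div_of_le (by norm_num) hE2
  have hEi0 : 0 < 1 / (E : ℝ) := by positivity
  -- the embedding of the block values
  obtain ⟨q0, hq0⟩ : ∃ q0 : ℕ, q0 = p ^ L := ⟨_, rfl⟩
  have hcU : Fintype.card (ZMod p × (Fin q0)) = p ^ (L + 1) := by
    rw [Fintype.card_prod, Fintype.card_fin, hq0, ZMod.card, pow_succ, mul_comm]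
  obtain ⟨io⟩ : Nonempty ((ZMod p × (Fin q0)) ↪ (Fin b → Bool)) := by
    apply Function.Embedding.nonempty_of_card_le
    rw [hcU, Fintype.card_fun, Fintype.card_bool, Fintype.card_fin, ← hb, pow_mul]
    exact Nat.pow_le_pow_left hple _
  have hq1 : 1 ≤ q0 := by
    rw [hq0]
    exact Nat.one_le_pow _ _ hpn0
  obtain ⟨al, hal⟩ : ∃ al : (Fin N → (Fin q0) → ZMod p) → Fin N → (Fin b → Bool) → ZMod p,
      al = fun a j q => Function.extend io (Pool.Agent.H91.AV.hs p (Fin q0) (a j))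
        (fun _ => 0) q := ⟨_, rfl⟩
  have hal' : ∀ a j u, al a j (io u) = Pool.Agent.H91.AV.hs p (Fin q0) (a j) u := by
    intro a j u
    rw [hal]
    exact io.injective.extend_apply _ _ _
  have hform := fun a : Fin N → (Fin q0) → ZMod p =>
    hFR p N R b n T bad (al a) dec cl hbad hsat
  choose m phi hm hphi hsum hviol using hform
  have hprs : (prs (b := b) T).card = R * 2 ^ (b * k) := hNP N R b k T hT
  have hvlow : ∀ a y, (1 - 1 / (E : ℝ)) * R ≤ (viol (phi a) y : ℝ) := by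
    intro a y
    rw [hviol a y]
    have h1 := hz (H1.LP.val (al a) (dec y))
    convert h1
  have hvm : ∀ a y, viol (phi a) y ≤ m a := by
    intro a y
    unfold viol
    refine (card_le_univ _).trans ?_
    rw [Fintype.card_fin]
  have hm1 : ∀ a, 1 ≤ m a := by
    intro a
    have h1 := hvlow a (fun _ => false)
    have h2 : (viol (phi a) (fun _ => false) : ℝ) ≤ m a := by exact_mod_cast hvm a _
    have h3 : (0 : ℝ) < m a := by
      have : 0 < (1 - 1 / (E : ℝ)) * R := mul_pos (by linarith) hR0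
      linarith
    exact_mod_cast h3
  have hm2 : ∀ a, m a ≤ R * 2 ^ (b * k) := by
    intro a
    rw [← hprs]
    exact hm a
  obtain ⟨Yc, hYc⟩ : ∃ Yc, Fintype.card (Fin N → (Fin q0) → ZMod p) = Yc := ⟨_, rfl⟩
  have hYc0 : 0 < Yc := by
    rw [← hYc]
    exact Fintype.card_pos
  let e : Fin Yc ≃ (Fin N → (Fin q0) → ZMod p) :=
    (Fintype.equivFinOfCardEq hYc).symm
  refine ⟨Yc, fun a => m (e a), fun a => phi (e a), hYc0, ?_, ?_⟩
  · intro a
    refine ⟨hm1 _, by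
        rw [hNO]
        exact hm2 _, ?_, ?_⟩
    · intro c
      obtain ⟨q, -, hq⟩ := hphi (e a) c
      show (phi (e a) c).card = b * k ∧ ((phi (e a) c).image Prod.fst).card = b * k
      rw [hq]
      have := hcard (T q.1) q.2
      rw [hT q.1] at this
      rw [mul_comm k] at this
      exact this
    · intro y
      have h5 : ((m (e a) : ℝ) / 2 ^ (b * k)) ≤ R := by
        rw [div_le_iff₀ (by positivity)]
        exact_mod_cast hm2 (e a)
      calc (1 - 1 / (E : ℝ)) * ((m (e a) : ℝ) / 2 ^ (b * k))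
          ≤ (1 - 1 / (E : ℝ)) * R := mul_le_mul_of_nonneg_left h5 (by linarith)
        _ ≤ _ := hvlow (e a) y
  -- the inequality
  intro M P A de S W θ hde hthde hW hθ hA hPW hθA hA0
  obtain ⟨A', hA'⟩ : ∃ A' : Finset (Fin N → (Fin q0) → ZMod p), A' = A.map e.toEmbedding :=
    ⟨_, rfl⟩
  have hA'c : A'.card = A.card := by
    rw [hA']
    exact card_map _
  have hA'm : ∀ a ∈ A', RefutedBy P (phi a) de S := by
    intro a ha
    rw [hA'] at ha
    obtain ⟨i, hi, rfl⟩ := mem_map.1 ha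
    exact hA i hi
  choose! J I TT hJ1 hJ2 hJ3 hJ4 using hA'm
  -- at least one pool
  have hW1 : 1 ≤ W := by
    have h1 : 0 < A'.card := by
      rw [hA'c]
      exact hA0
    obtain ⟨a, ha⟩ := Finset.card_pos.1 h1
    obtain ⟨j, hj, -⟩ := hJ2 a ha (fun _ => false)
    refine le_trans ?_ hPW
    have h2 : ∀ j, (1 : ℝ) ≤ (P j).sizeOf Finset.univ Finset.univ := by
      intro j
      unfold Pool.sizeOf
      have h3 : (0 : ℝ) ≤ ∑ i ∈ (univ : Finset (Fin (P j).nb)), ((P j).ord i : ℝ) :=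
        Finset.sum_nonneg fun i _ => Nat.cast_nonneg _
      have h4 : (0 : ℝ) ≤ ((univ : Finset (Fin (P j).nc)).card : ℝ) := Nat.cast_nonneg _
      linarith
    calc (1 : ℝ) ≤ (P j).sizeOf Finset.univ Finset.univ := h2 j
      _ ≤ ∑ j, (P j).sizeOf Finset.univ Finset.univ :=
        Finset.single_le_sum (f := fun j => (P j).sizeOf Finset.univ Finset.univ)
          (fun j _ => (by norm_num : (0 : ℝ) ≤ 1).trans (h2 j)) (mem_univ j)
  have hMx1 : (1 : ℝ) ≤ (p : ℝ) ^ N := one_le_pow₀ hp1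
  have hη : 0 < de / (4 * (p : ℝ) ^ N) := by positivity
  have hlp : ∀ (a : Fin N → (Fin q0) → ZMod p) (j : Fin M),
      ∃ (mu : Fin (P j).nc → ℝ)
        (Lm : (i : Fin (P j).nb) → Matrix (Fin ((P j).ord i)) (Fin ((P j).ord i)) ℝ) (lam0 : ℝ),
      (∀ t, 0 ≤ mu t) ∧ (∀ t, t ∉ TT a j → mu t = 0) ∧ ∑ t, mu t ≤ 1 ∧
      (∀ i, (Lm i).PosSemidef) ∧ (∀ i, i ∉ I a j → Lm i = 0) ∧ 0 ≤ lam0 ∧
      (a ∈ A' → j ∈ J a → ∀ x ∈ (P j).cell,
        |∑ t, mu t * (P j).loss t ((P j).pt x) - de -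
          (lam0 + ∑ i, (Lm i * ((P j).B0 i + ∑ k, (P j).pt x k • (P j).B i k)).trace)| ≤
          de / (4 * (p : ℝ) ^ N)) := by
    intro a j
    by_cases h : a ∈ A' ∧ j ∈ J a ∧ (P j).cell.Nonempty
    · obtain ⟨mu, Lm, lam0, h1, h2, h3, h4, h5, h6, h7⟩ := hOD n (P j) (I a j) (TT a j) de h.2.2
        (hJ3 a h.1 j h.2.1).2 (de / (4 * (p : ℝ) ^ N)) hη
      exact ⟨mu, Lm, lam0, h1, h2, h3.le, h4, h5, h6, fun _ _ => h7⟩
    · refine ⟨fun _ => 0, fun _ => 0, 0, fun _ => le_rfl, fun _ _ => rfl, by simp,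
        fun _ => Matrix.PosSemidef.zero, fun _ _ => rfl, le_rfl, ?_⟩
      intro ha hj x hx
      exact absurd ⟨ha, hj, ⟨x, hx⟩⟩ h
  choose mu Lm lam0 hm0 hmT hms hLp hLI hl0 hlm using hlp
  have hcYt : ((Fintype.card (Fin N → (Fin q0) → ZMod p) : ℕ) : ℝ) = Yc := by rw [hYc]
  have hYR : (0 : ℝ) < Yc := by exact_mod_cast hYc0
  -- the kernel
  obtain ⟨pt, hpt⟩ : ∃ pt : (Fin N → ZMod p × Fin q0) → (Fin n → Bool),
      pt = fun x => asg (fun j => io (x j)) := ⟨_, rfl⟩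
  have hptd : ∀ x, dec (pt x) = fun j => io (x j) := by
    intro x
    rw [hpt]
    exact hda _
  obtain ⟨kb, hkb⟩ : ∃ kb : ℝ, kb = kc p q0 N h e0 W θ := ⟨_, rfl⟩
  have hkb0 : 0 ≤ kb := by
    rw [hkb]
    exact kc_nonneg _ _ _ _ _ _ _ he0 hW hθ
  have hpq : (p : ℝ) ≤ e0 * q0 := by
    rw [hq0]
    exact hpL
  have hBal : Pool.Agent.H91.AV.Bal (Pool.Agent.H91.AV.hs p (Fin q0)) := hBA p (Fin q0)
  have hmass : ∀ a : Fin N → (Fin q0) → ZMod p,
      ∑ x : Fin N → ZMod p × Fin q0,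
        D (fun i => Pool.Agent.H91.AV.hs p (Fin q0) (a i) (x i)) =
        Fintype.card (Fin N → ZMod p × Fin q0) := by
    intro a
    have h1 := hMA ((Fin q0) → ZMod p) (ZMod p × (Fin q0)) (ZMod p)
      (Pool.Agent.H91.AV.hs p (Fin q0)) hBal N D a
    have h0 : ∑ z, D z = (p : ℝ) ^ N := by
      have h4 : ((Fintype.card (Fin N → ZMod p) : ℕ) : ℝ) = (p : ℝ) ^ N := by
        rw [Fintype.card_fun, ZMod.card, Fintype.card_fin]
        push_cast
        rfl
      unfold av at havD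
      rw [h4] at havD
      have h5 : (p : ℝ) ^ N ≠ 0 := by positivity
      field_simp at havD
      exact havD
    rw [h0, ZMod.card] at h1
    have h2 : (p : ℝ) ^ N ≠ 0 := by positivity
    have h3 := mul_right_cancel₀ h2 h1
    rw [h3, Fintype.card_fun (α := Fin N), Fintype.card_fin]
    push_cast
    rfl
  -- the index of a clause in a formula
  have hidx : ∀ (c : Clause n) (a : Fin N → (Fin q0) → ZMod p), ∃ i : Fin R,
      c ∈ univ.image (phi a) → ∀ x : Fin N → ZMod p × Fin q0, ¬ c.Sat (pt x) →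
        bad i (fun i => Pool.Agent.H91.AV.hs p (Fin q0) (a i) (x i)) := by
    intro c a
    by_cases hc : c ∈ univ.image (phi a)
    · obtain ⟨s, -, hs⟩ := mem_image.1 hc
      have h1 := hsum a (fun c' => if c' = c then (1 : ℝ) else 0)
      have h2 : 0 < ∑ c', (fun c' => if c' = c then (1 : ℝ) else 0) (phi a c') := by
        refine Finset.sum_pos' (fun c' _ => ?_) ⟨s, mem_univ _, ?_⟩
        · dsimp only
          split_ifs <;> norm_num
        · dsimp only
          rw [if_pos hs]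
          norm_num
      rw [h1] at h2
      obtain ⟨q, hq, hq2⟩ := Finset.exists_ne_zero_of_sum_ne_zero h2.ne'
      have hq3 : cl (T q.1) q.2 = c := by
        by_contra h3
        apply hq2
        rw [if_neg h3]
      refine ⟨q.1, fun _ x hx => ?_⟩
      have h4 : Agree (T q.1) (dec (pt x)) q.2 := by
        rw [← hq3, hsat, not_not] at hx
        exact hx
      rw [hptd] at h4
      refine (hbad q.1 (H1.LP.val (al a) q.2) _ ?_).1 (mem_filter.1 hq).2
      intro j hj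
      show al a j (q.2 j) = _
      rw [← h4 j hj, hal']
    · exact ⟨⟨0, hR⟩, fun h => absurd h hc⟩
  choose idx hidx using hidx
  have hne : Nonempty (Fin N → ZMod p × Fin q0) := ⟨fun _ => (0, ⟨0, hq1⟩)⟩
  have key := hAB (Fin N → ZMod p × Fin q0) (Fin N → (Fin q0) → ZMod p) (Clause n)
    (fun a x => D (fun i => Pool.Agent.H91.AV.hs p (Fin q0) (a i) (x i))) (R * kb)
    ((p : ℝ) ^ N) (θ * Yc) W th (fun a => univ.image (phi a)) (fun c x => c.Sat (pt x))
    (by positivity) hMx1 (by positivity) hth0 (fun a x => hD _) hmass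
    (by
      intro q f g hqW hf hg A1 X1 m1 hm1 htr
      have h1 := hCE p q0 N h e0 W θ hq1 he0 he1 hpq hW hθ D ((p : ℝ) ^ N) hD hPos
        q f g hqW hf hg A1 X1 m1 hm1 htr
      rw [hcYt, ← hkb] at h1
      refine le_trans (neg_le_neg ?_) h1
      refine err_mono (by positivity) ?_ ?_
      · exact Finset.sum_nonneg fun a _ => Finset.sum_nonneg fun x _ =>
          H49.SDP.trace_mul_nonneg (hf a) (hg x)
      · have h2 : (1 : ℝ) * kb ≤ R * kb := mul_le_mul_of_nonneg_right hR1 hkb0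
        rw [one_mul] at h2
        gcongr)
    (by
      intro c f g hf hg hfc hgc A1 X1 m1 hm1 hfg
      refine clv R _ (fun i a x => if bad i (fun i => Pool.Agent.H91.AV.hs p (Fin q0) (a i) (x i))
        then D (fun i => Pool.Agent.H91.AV.hs p (Fin q0) (a i) (x i)) else 0) ((p : ℝ) ^ N) kb
        (θ * Yc) th (by positivity) hkb0 (by positivity) ?_ (idx c) f g hf hg ?_ A1 X1 m1 hm1 hfg
      · intro i f' g' hf' hg' A2 X2 m2 hm2 hfg2
        have h1 := one_c hCE p q0 N h e0 W θ hq1 he0 he1 hpq hW1 hθ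
          (fun z => if bad i z then D z else 0) ((p : ℝ) ^ N) th hMx1
          (by
            intro z
            split_ifs
            · exact hD z
            · rw [abs_zero]
              positivity) hth0 hth1 (hvP i) f' g' hf' hg' A2 X2 m2 hm2 hfg2
        rw [hcYt, ← hkb] at h1
        exact h1
      · intro a x hfa hgx
        rw [if_pos (hidx c a (hfc a hfa) x (hgc x hgx))])
    M A' J (fun j => {x | pt x ∈ (P j).cell}) (fun j => (P j).nb) (fun j => (P j).nc)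
    (fun j => (P j).ord) (fun j => (P j).cl) I TT
    (fun j x i => (P j).B0 i + ∑ k, (P j).pt (pt x) k • (P j).B i k) Lm lam0 mu
    (fun j t x => (P j).loss t ((P j).pt (pt x))) de S hde hthde
    (by
      intro a ha x
      obtain ⟨j, hj, hx⟩ := hJ2 a ha (pt x)
      exact ⟨j, hj, hx⟩)
    (by
      intro a ha j hj j' hj' hne
      rw [Set.disjoint_left]
      intro x hx hx'
      exact (Finset.disjoint_left.1 (hJ1 a ha j hj j' hj' hne)) hx hx')
    (by
      intro j x hx i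
      exact (P j).feas (pt x) hx i)
    hLp hLI hl0 hm0 hmT (fun a _ j _ => hms a j)
    (by
      intro a ha j hj t ht
      obtain ⟨i, hi⟩ := (hJ3 a ha j hj).1 t ht
      exact mem_image.2 ⟨i, mem_univ _, hi⟩)
    (by
      intro j t x hx
      exact (P j).bdd (pt x) hx t)
    (by
      intro j t x hx hs
      exact (P j).sound (pt x) hx t hs)
    (by
      intro a ha j hj x hx
      exact hlm a j ha hj (pt x) hx)
    hJ4
    (by
      refine le_trans (le_of_eq ?_) hPW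
      refine Finset.sum_congr rfl fun j _ => ?_
      unfold Pool.sizeOf
      rw [Finset.card_univ, Fintype.card_fin])
    (by
      rw [hA'c]
      exact hθA)
    (by
      rw [hA'c]
      exact hA0)
  rw [hkb, hq0] at key
  exact key

end Pool.Agent.H91.QO
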