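import Pool.Agent.H91.QO.Asm
import Pool.Agent.H58.QO.GOO2
import Pool.Agent.H58.QO.ODUAL
import Pool.Agent.H42.QO.LVP
import Pool.Agent.H42.QO.MONO
import Pool.Agent.H52.QO.VKE
import Pool.Agent.H76.QE.Asm2

/-! # MP_c62aed_lc, constraints chosen after the formula, order version: the theorem (helper91) -/

set_option autoImplicit false

namespace Pool.Agent.H91.QO

open Pool.Agent.H43.QO (T_GOO2 T_LVP T_VKE StatementOW StatementO S_ODUAL S_MONO)

theorem lvp : T_LVP :=
  H42.QO.pf_LVP (H52.QO.pf_VKE H83.QD.pf_CPX) H67.QD.pf_PSV H64.QD.pf_FOU H70.QD.pf_COV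
    H67.QD.pf_SCH

theorem goo2 : T_GOO2 :=
  H58.QO.GOO2.pf_GOO2 H64.QD.pf_CNT H76.QE.dzp H76.QE.kfb H76.QE.pos H76.QE.syq lvp

theorem odual : S_ODUAL := H58.QO.pf_ODUAL H39.QO.pf_HB UV.udual'

/-- the large width case -/
theorem statementOW : StatementOW := statementOW_of odual goo2

/-- SETH for semidefinite programs, total order, constraints chosen after the formula -/
theorem statementO : StatementO := statementO_of odual goo2 (H42.QO.pf_MONO H73.UV.pf_TOS)

end Pool.Agent.H91.QO
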